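import Pool.Agent.H87.FS.Minor

set_option autoImplicit false

namespace Pool.Agent.H87.FS
open Pool.Agent.H67.FS Matrix IsLocalRing

universe u

theorem col : T_COL.{u} := by
  classical
  intro R L _ _ _ _ _ _ p q _ _ M hrk b c α hα hMb
  obtain ⟨f, g, hdet⟩ := exists_minor (M.map (residue R)) _ le_rfl
  have hinj : Function.Injective (algebraMap R L) := IsFractionRing.injective R L
  let N : Matrix _ _ R := M.submatrix f g
  have hN : IsUnit N.det := by
    have h1 : residue R N.det ≠ 0 := by
      rw [RingHom.map_det]
      exact hdet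
    rwa [residue_ne_zero_iff_isUnit] at h1
  let ML : Matrix p q L := M.map (algebraMap R L)
  let NL : Matrix _ _ L := N.map (algebraMap R L)
  have hNL : IsUnit NL := by
    rw [isUnit_iff_isUnit_det]
    have h1 : NL.det = algebraMap R L N.det := by
      rw [RingHom.map_det]
      rfl
    rw [h1]
    exact hN.map _
  have hli : LinearIndependent L (fun j => ML.col (g j)) := by
    have h1 : LinearIndependent L NL.col := linearIndependent_cols_iff_isUnit.2 hNL
    refine LinearIndependent.of_comp (LinearMap.funLeft L L f) ?_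
    exact h1
  have hW : Submodule.span L (Set.range fun j => ML.col (g j)) =
      Submodule.span L (Set.range ML.col) := by
    refine Submodule.eq_of_le_of_finrank_le (Submodule.span_mono ?_) ?_
    · rintro _ ⟨j, rfl⟩
      exact ⟨g j, rfl⟩
    · rw [← rank_eq_finrank_span_cols, finrank_span_eq_card hli, Fintype.card_fin]
      exact hrk
  let cL : p → L := fun i => algebraMap R L (c i)
  have hc : cL ∈ Submodule.span L (Set.range ML.col) := by
    rw [← range_mulVecLin]
    refine ⟨(algebraMap R L α)⁻¹ • fun i => algebraMap R L (b i), ?_⟩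
    have hα' : algebraMap R L α ≠ 0 := fun h => hα (hinj (by rw [h, map_zero]))
    rw [mulVecLin_apply, mulVec_smul]
    have h1 : ML *ᵥ (fun i => algebraMap R L (b i)) = fun i => algebraMap R L ((M *ᵥ b) i) := by
      funext i
      exact (RingHom.map_mulVec (algebraMap R L) M b i).symm
    rw [h1, hMb]
    funext i
    simp only [Pi.smul_apply, smul_eq_mul, map_mul]
    rw [inv_mul_cancel_left₀ hα']
  rw [← hW, Submodule.mem_span_range_iff_exists_fun] at hc
  obtain ⟨l, hl⟩ := hc
  let l' : _ → R := N⁻¹ *ᵥ (c ∘ f)
  have hNl' : N *ᵥ l' = c ∘ f := by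
    show N *ᵥ (N⁻¹ *ᵥ (c ∘ f)) = c ∘ f
    rw [mulVec_mulVec, mul_nonsing_inv _ hN, one_mulVec]
  have hll : (fun j => algebraMap R L (l' j)) = l := by
    apply mulVec_injective_of_isUnit hNL
    have h1 : NL *ᵥ (fun j => algebraMap R L (l' j)) = fun i => algebraMap R L ((N *ᵥ l') i) := by
      funext i
      exact (RingHom.map_mulVec (algebraMap R L) N l' i).symm
    rw [h1, hNl']
    funext i
    have h2 := congrFun hl (f i)
    simp only [Finset.sum_apply, Pi.smul_apply, smul_eq_mul] at h2
    show algebraMap R L (c (f i)) = ∑ j, NL i j * l j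
    rw [show algebraMap R L (c (f i)) = cL (f i) from rfl, ← h2]
    exact Finset.sum_congr rfl fun j _ => mul_comm _ _
  have hcl : ∀ i, c i = ∑ j, M i (g j) * l' j := by
    intro i
    apply hinj
    rw [map_sum]
    have h2 := congrFun hl i
    simp only [Finset.sum_apply, Pi.smul_apply, smul_eq_mul] at h2
    rw [show algebraMap R L (c i) = cL i from rfl, ← h2]
    refine Finset.sum_congr rfl fun j _ => ?_
    rw [map_mul, ← hll, mul_comm]
    rfl
  refine ⟨fun k => ∑ j, if g j = k then residue R (l' j) else 0, ?_⟩
  funext i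
  rw [hcl i, map_sum]
  show ∑ k, residue R (M i k) * (∑ j, if g j = k then residue R (l' j) else 0) = _
  simp_rw [Finset.mul_sum]
  rw [Finset.sum_comm]
  refine Finset.sum_congr rfl fun j _ => ?_
  rw [Finset.sum_eq_single (g j)]
  · rw [if_pos rfl, map_mul]
  · intro k _ hk
    rw [if_neg (Ne.symm hk), mul_zero]
  · intro h
    exact absurd (Finset.mem_univ _) h

end Pool.Agent.H87.FS
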