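import Pool.Agent.H67.FS.Targets

set_option autoImplicit false

namespace Pool.Agent.H87.FS
open Pool.Agent.H67.FS Matrix IsLocalRing

universe u

theorem dense (hM : T_MINOR.{u}) : T_DENSE.{u} := by
  classical
  intro K κ _ _ _ _ ι m n _ _ _ _ _ A r hT x
  by_contra hcon
  push Not at hcon
  obtain ⟨f, g, hdet⟩ := (hM κ m n _ r).1 hcon
  let D : MvPolynomial ι κ :=
    (∑ i, (MvPolynomial.X i : MvPolynomial ι κ) • ((A i).submatrix f g).map MvPolynomial.C).det
  have heval : ∀ y : ι → κ, MvPolynomial.eval y D = ((∑ i, y i • A i).submatrix f g).det := by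
    intro y
    show MvPolynomial.eval y (Matrix.det _) = _
    rw [RingHom.map_det]
    congr 1
    ext a b
    simp only [RingHom.mapMatrix_apply, Matrix.map_apply, Matrix.sum_apply, Matrix.smul_apply,
      smul_eq_mul, map_sum, map_mul, MvPolynomial.eval_X, MvPolynomial.eval_C,
      Matrix.submatrix_apply]
  have hD : D = 0 := by
    have hinf : (Set.range fun z : Kˣ => algebraMap K κ (z : K)).Infinite := by
      have h1 : ({0}ᶜ : Set K).Infinite := (Set.finite_singleton (0 : K)).infinite_compl
      have h2 := h1.image ((algebraMap K κ).injective.injOn)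
      refine h2.mono ?_
      rintro _ ⟨a, ha, rfl⟩
      exact ⟨Units.mk0 a ha, rfl⟩
    refine MvPolynomial.funext_set (fun _ => Set.range fun z : Kˣ => algebraMap K κ (z : K))
      (fun _ => hinf) ?_
    intro y hy
    have hy' : ∀ i, ∃ z : Kˣ, algebraMap K κ (z : K) = y i := fun i => hy i (Set.mem_univ i)
    choose z hz using hy'
    show MvPolynomial.eval y D = MvPolynomial.eval y 0
    rw [heval, map_zero]
    by_contra hne
    have h1 := (hM κ m n (∑ i, y i • A i) r).2 ⟨f, g, hne⟩
    have h2 := hT z
    rw [show (∑ i, algebraMap K κ (z i) • A i) = ∑ i, y i • A i from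
      Finset.sum_congr rfl fun i _ => by rw [hz]] at h2
    omega
  apply hdet
  have h3 := heval (fun i => algebraMap K κ (x i))
  rw [hD, map_zero] at h3
  exact h3.symm

end Pool.Agent.H87.FS
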