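import Pool.Agent.H87.FS.Minor

set_option autoImplicit false

namespace Pool.Agent.H87.FS
open Pool.Agent.H67.FS Matrix IsLocalRing

universe u

/-- a vector of the column space which vanishes on the rows of a maximal nonzero minor is zero -/
lemma eq_zero_of_minor {F p q : Type*} [Field F] [Fintype p] [Fintype q] [DecidableEq p]
    (A : Matrix q p F) (f : Fin A.rank → q) (g : Fin A.rank → p)
    (hdet : (A.submatrix f g).det ≠ 0) (w : p → F) (h : ∀ i, (A *ᵥ w) (f i) = 0) :
    A *ᵥ w = 0 := by
  have hN : IsUnit (A.submatrix f g) := by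
    rw [isUnit_iff_isUnit_det, isUnit_iff_ne_zero]
    exact hdet
  have hli : LinearIndependent F (fun j => A.col (g j)) := by
    have h1 : LinearIndependent F (A.submatrix f g).col := linearIndependent_cols_iff_isUnit.2 hN
    refine LinearIndependent.of_comp (LinearMap.funLeft F F f) ?_
    exact h1
  have hW : Submodule.span F (Set.range fun j => A.col (g j)) =
      Submodule.span F (Set.range A.col) := by
    refine Submodule.eq_of_le_of_finrank_le (Submodule.span_mono ?_) ?_
    · rintro _ ⟨j, rfl⟩
      exact ⟨g j, rfl⟩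
    · rw [← rank_eq_finrank_span_cols, finrank_span_eq_card hli, Fintype.card_fin]
  have hc : A *ᵥ w ∈ Submodule.span F (Set.range A.col) := by
    rw [← range_mulVecLin]
    exact ⟨w, rfl⟩
  rw [← hW, Submodule.mem_span_range_iff_exists_fun] at hc
  obtain ⟨l, hl⟩ := hc
  have hl0 : l = 0 := by
    apply mulVec_injective_of_isUnit hN
    rw [mulVec_zero]
    funext i
    have h2 := congrFun hl (f i)
    rw [h i] at h2
    simp only [Finset.sum_apply, Pi.smul_apply, smul_eq_mul] at h2
    show ∑ j, A (f i) (g j) * l j = 0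
    rw [← h2]
    exact Finset.sum_congr rfl fun j _ => mul_comm _ _
  rw [← hl, hl0]
  simp

theorem lift : T_LIFT.{u} := by
  classical
  intro R _ _ _ p q _ _ Φ Φb hcomp H
  let A : Matrix q p R := LinearMap.toMatrix' Φ
  have hΦ : ∀ w, Φ w = A *ᵥ w := fun w => (LinearMap.toMatrix'_mulVec Φ w).symm
  let Ab : Matrix q p (ResidueField R) := A.map (residue R)
  have hmap : ∀ w : p → R, Ab *ᵥ (fun i => residue R (w i)) = fun j => residue R ((A *ᵥ w) j) := by
    intro w
    funext j
    exact (RingHom.map_mulVec (residue R) A w j).symm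
  have hΦb : ∀ w, Φb w = Ab *ᵥ w := by
    intro w
    have h1 : ∀ i, ∃ b : R, residue R b = w i := fun i => residue_surjective (w i)
    choose b hb using h1
    have h2 := hcomp b
    rw [hΦ] at h2
    have h3 := hmap b
    have h4 : (fun i => residue R (b i)) = w := funext hb
    rw [h4] at h2 h3
    rw [← h2, ← h3]
  obtain ⟨f, g, hdet⟩ := exists_minor Ab _ le_rfl
  have key := eq_zero_of_minor Ab f g hdet
  let N : Matrix _ _ R := A.submatrix f g
  have hN : IsUnit N.det := by
    have h1 : residue R N.det ≠ 0 := by
      rw [RingHom.map_det]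
      exact hdet
    rwa [residue_ne_zero_iff_isUnit] at h1
  let Gm : Matrix p _ R := (1 : Matrix p p R).submatrix id g
  let FA : Matrix _ p R := A.submatrix f id
  have hFG : FA * Gm = N := by
    ext i j
    simp only [mul_apply, FA, Gm, submatrix_apply, id, one_apply]
    simp [N]
  let T : Matrix p p R := Gm * N⁻¹ * FA
  let B : Matrix q p R := A * (1 - T)
  have hB0 : ∀ i j, B (f i) j = 0 := by
    have h1 : FA * (1 - T) = 0 := by
      have h2 : FA * T = FA := by
        show FA * (Gm * N⁻¹ * FA) = FA
        rw [← Matrix.mul_assoc, ← Matrix.mul_assoc, hFG, mul_nonsing_inv _ hN, Matrix.one_mul]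
      rw [Matrix.mul_sub, Matrix.mul_one, h2, sub_self]
    intro i j
    have h2 := congrFun (congrFun h1 i) j
    simpa [mul_apply, FA, B] using h2
  -- the entries of `B` vanish
  have hB : B = 0 := by
    have hfg : (Ideal.span (Set.range fun s : q × p => B s.1 s.2)).FG := by
      refine ⟨Finset.univ.image fun s : q × p => B s.1 s.2, ?_⟩
      simp
    obtain ⟨α, hα⟩ := (IsBezout.isPrincipal_of_FG _ hfg)
    have hdiv : ∀ i j, ∃ c, B i j = α * c := by
      intro i j
      have h1 : B i j ∈ Ideal.span (Set.range fun s : q × p => B s.1 s.2) :=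
        Ideal.subset_span ⟨(i, j), rfl⟩
      rw [hα] at h1
      obtain ⟨c, hc⟩ := Ideal.mem_span_singleton'.1 h1
      exact ⟨c, by rw [← hc, mul_comm]⟩
    choose C hC using hdiv
    have hαm : α ∈ maximalIdeal R := by
      have h1 : Ideal.span (Set.range fun s : q × p => B s.1 s.2) ≤ maximalIdeal R := by
        rw [Ideal.span_le]
        rintro _ ⟨⟨i, j⟩, rfl⟩
        have h2 : Ab *ᵥ (fun k => residue R ((1 - T) k j)) = 0 := by
          apply key
          intro k
          rw [hmap]
          show residue R (B (f k) j) = 0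
          rw [hB0, map_zero]
        rw [hmap] at h2
        have h3 := congrFun h2 i
        exact (residue_eq_zero_iff _).1 h3
      apply h1
      rw [hα]
      exact Ideal.mem_span_singleton_self α
    by_contra hne
    have hα0 : α ≠ 0 := by
      rintro rfl
      apply hne
      ext i j
      rw [hC, zero_mul]
      rfl
    -- some `C i j` is a unit
    have hunit : ∃ i j, IsUnit (C i j) := by
      by_contra hno
      push Not at hno
      have h1 : α ∈ Ideal.span (Set.range fun s : q × p => B s.1 s.2) := by
        rw [hα]; exact Ideal.mem_span_singleton_self α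
      obtain ⟨r, hr⟩ := (Ideal.mem_span_range_iff_exists_fun).1 h1
      have h2 : ∑ s : q × p, r s * C s.1 s.2 = 1 := by
        apply mul_left_cancel₀ hα0
        rw [Finset.mul_sum, mul_one]
        calc ∑ s : q × p, α * (r s * C s.1 s.2) = ∑ s : q × p, r s * B s.1 s.2 := by
              refine Finset.sum_congr rfl fun s _ => ?_
              rw [hC]; ring
          _ = α := hr
      have h3 : (1 : R) ∈ maximalIdeal R := by
        rw [← h2]
        refine Ideal.sum_mem _ fun s _ => Ideal.mul_mem_left _ _ ?_
        exact (mem_maximalIdeal _).2 (hno s.1 s.2)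
      exact (Ideal.ne_top_iff_one _).1 (maximalIdeal.isMaximal R).ne_top h3
    obtain ⟨i, j, hij⟩ := hunit
    have h1 : Φ (fun k => (1 - T) k j) = α • fun i => C i j := by
      rw [hΦ]
      funext i
      show B i j = α * C i j
      exact hC i j
    have h2 := H _ _ α hα0 hαm h1
    obtain ⟨w, hw⟩ := h2
    rw [hΦb] at hw
    have h3 : Ab *ᵥ w = 0 := by
      apply key
      intro k
      rw [hw]
      have h4 : C (f k) j = 0 := by
        have h5 := hC (f k) j
        rw [hB0] at h5
        rcases mul_eq_zero.1 h5.symm with h6 | h6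
        · exact absurd h6 hα0
        · exact h6
      show residue R (C (f k) j) = 0
      rw [h4, map_zero]
    rw [h3] at hw
    have h4 := congrFun hw i
    exact ((residue_ne_zero_iff_isUnit _).2 hij) h4.symm
  intro v hv
  have h1 : ∀ i, ∃ b : R, residue R b = v i := fun i => residue_surjective (v i)
  choose b hb using h1
  have hbv : (fun i => residue R (b i)) = v := funext hb
  refine ⟨(1 - T) *ᵥ b, ?_, ?_⟩
  · rw [hΦ, mulVec_mulVec]
    show B *ᵥ b = 0
    rw [hB, zero_mulVec]
  · intro i
    have h2 : ((1 - T) *ᵥ b) = b - (Gm * N⁻¹) *ᵥ (FA *ᵥ b) := by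
      rw [sub_mulVec, one_mulVec, mulVec_mulVec]
    rw [h2, Pi.sub_apply, map_sub, hb, sub_eq_self]
    show residue R (∑ k, (Gm * N⁻¹) i k * (FA *ᵥ b) k) = 0
    rw [map_sum]
    refine Finset.sum_eq_zero fun k _ => ?_
    rw [map_mul]
    have h3 : residue R ((FA *ᵥ b) k) = 0 := by
      have h4 := congrFun (hmap b) (f k)
      rw [hbv] at h4
      have h5 : Ab *ᵥ v = 0 := by rw [← hΦb, hv]
      rw [h5] at h4
      exact h4.symm
    rw [h3, mul_zero]

end Pool.Agent.H87.FS
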