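import Pool.Agent.H67.FS.Targets

set_option autoImplicit false

namespace Pool.Agent.H87.FS
open Pool.Agent.H67.FS Matrix IsLocalRing

universe u

/-- `r` linearly independent members of a family spanning a space of dimension at least `r` -/
lemma exists_indep {F V ι : Type*} [Field F] [AddCommGroup V] [Module F V] [Finite ι]
    (v : ι → V) (r : ℕ)
    (h : r ≤ Module.finrank F (Submodule.span F (Set.range v))) :
    ∃ g : Fin r → ι, LinearIndependent F (v ∘ g) := by
  have hfin : Module.Finite F (Submodule.span F (Set.range v)) :=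
    Module.Finite.span_of_finite F (Set.finite_range v)
  obtain ⟨f, hf, _, hli⟩ := Submodule.exists_fun_fin_finrank_span_eq F (Set.range v)
  choose g hg using hf
  refine ⟨fun i => g (Fin.castLE h i), ?_⟩
  have h1 : v ∘ (fun i => g (Fin.castLE h i)) = f ∘ Fin.castLE h := by
    funext i
    exact hg _
  rw [h1]
  exact hli.comp _ (Fin.castLE_injective h)

lemma exists_minor {F m n : Type*} [Field F] [Fintype m] [Fintype n]
    (M : Matrix m n F) (r : ℕ) (h : r ≤ M.rank) :
    ∃ (f : Fin r → m) (g : Fin r → n), (M.submatrix f g).det ≠ 0 := by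
  rw [rank_eq_finrank_span_cols] at h
  obtain ⟨g, hg⟩ := exists_indep _ r h
  have h2 : (M.submatrix id g).rank = r := by
    have h3 := LinearIndependent.rank_matrix (M := (M.submatrix id g)ᵀ) hg
    rw [rank_transpose, Fintype.card_fin] at h3
    exact h3
  have h4 : r ≤ (M.submatrix id g).rank := h2.ge
  rw [rank_eq_finrank_span_row] at h4
  obtain ⟨f, hf⟩ := exists_indep _ r h4
  refine ⟨f, g, ?_⟩
  have h5 : LinearIndependent F (M.submatrix f g).row := hf
  rw [linearIndependent_rows_iff_isUnit, isUnit_iff_isUnit_det, isUnit_iff_ne_zero] at h5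
  exact h5

theorem minor : T_MINOR.{u} := by
  intro F _ m n _ _ _ _ M r
  constructor
  · exact exists_minor M r
  · rintro ⟨f, g, hd⟩
    have h1 := rank_of_det_ne_zero hd
    rw [Fintype.card_fin] at h1
    rw [← h1]
    exact rank_submatrix_le M f g

theorem mapfr (h : T_MINOR.{u}) : T_MAPFR.{u} := by
  classical
  intro F F' _ _ γ s n _ _ v
  have h1 : Module.finrank F (Submodule.span F (Set.range v)) = (Matrix.of v).rank := by
    rw [rank_eq_finrank_span_row]
    rfl
  have h2 : Module.finrank F' (Submodule.span F' (Set.range fun i j => γ (v i j))) =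
      ((Matrix.of v).map γ).rank := by
    rw [rank_eq_finrank_span_row]
    rfl
  rw [h1, h2]
  have key : ∀ r, r ≤ ((Matrix.of v).map γ).rank ↔ r ≤ (Matrix.of v).rank := by
    intro r
    rw [h F' s n ((Matrix.of v).map γ) r, h F s n (Matrix.of v) r]
    refine exists_congr fun f => exists_congr fun g => not_congr ?_
    have h3 : ((Matrix.of v).map γ).submatrix f g = γ.mapMatrix ((Matrix.of v).submatrix f g) := rfl
    rw [h3, ← RingHom.map_det]
    exact map_eq_zero γ
  exact le_antisymm ((key _).1 le_rfl) ((key _).2 le_rfl)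

end Pool.Agent.H87.FS
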